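import Pool.Agent.Helper54.SP.StmtsP

/-!
Module `COO`: coordinates of the bracket.
-/

namespace Pool.Agent.Helper54.SP

open Finset

/-- rows `a, b, c` and the apices -/
noncomputable def cooM (N m : ℕ) (X : ℕ → ℕ → ℝ) (t : Fin 3 → ℕ) :
    Matrix (Fin 3 ⊕ Fin m) (Fin 3 ⊕ Fin m) ℝ :=
  fun s j => X (Sum.elim t (fun i : Fin m => N + (i : ℕ)) s) (finSumFinEquiv j : Fin (3 + m))

theorem coo_br (N m : ℕ) (X : ℕ → ℕ → ℝ) (p q r : ℕ) :
    br N m X p q r = (cooM N m X ![p, q, r]).det := by
  unfold br dt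
  rw [← Matrix.det_submatrix_equiv_self (finSumFinEquiv (m := 3) (n := m))]
  congr 1
  ext s j
  simp only [Matrix.submatrix_apply, Matrix.of_apply, cooM]
  congr 1
  rcases s with s | s
  · simp only [finSumFinEquiv_apply_left, Fin.val_castAdd, Sum.elim_inl]
    fin_cases s <;> rfl
  · simp only [finSumFinEquiv_apply_right, Fin.val_natAdd, Sum.elim_inr]
    have h1 : ([p, q, r] ++ apx N m).getD (3 + (s : ℕ)) 0 = (apx N m).getD (s : ℕ) 0 := by
      rw [List.getD_append_right _ _ _ _ (by simp)]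
      simp
    rw [h1]
    unfold apx
    rw [List.getD_eq_getElem _ _ (by simp)]
    simp

theorem coo_gen {m : ℕ} (M : Matrix (Fin 3 ⊕ Fin m) (Fin 3 ⊕ Fin m) ℝ) (hM : M.det ≠ 0)
    (x : Fin 3 → (Fin 3 ⊕ Fin m) → ℝ) :
    (Matrix.of (Sum.elim x (fun i => M (Sum.inr i))) :
      Matrix (Fin 3 ⊕ Fin m) (Fin 3 ⊕ Fin m) ℝ).det * M.det ^ 2 =
    (Matrix.of fun i j : Fin 3 => (M.updateRow (Sum.inl j) (x i)).det).det := by
  classical
  set Nx : Matrix (Fin 3 ⊕ Fin m) (Fin 3 ⊕ Fin m) ℝ :=
    Matrix.of (Sum.elim x (fun i => M (Sum.inr i))) with hNx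
  set A : Matrix (Fin 3) (Fin 3) ℝ :=
    Matrix.of fun i j : Fin 3 => (M.updateRow (Sum.inl j) (x i)).det with hA
  set B : Matrix (Fin 3) (Fin m) ℝ :=
    Matrix.of fun (i : Fin 3) (j : Fin m) => (M.updateRow (Sum.inr j) (x i)).det with hB
  set C : Matrix (Fin 3 ⊕ Fin m) (Fin 3 ⊕ Fin m) ℝ := Matrix.fromBlocks A B 0 1 with hC
  have hcr : ∀ i : Fin 3, C (Sum.inl i) = Matrix.cramer M.transpose (x i) := by
    intro i
    funext j
    rw [Matrix.cramer_transpose_apply]
    rcases j with j | j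
    · rfl
    · rfl
  have hprod : C * M = Matrix.of fun s j =>
      (Sum.elim (fun _ : Fin 3 => M.det) (fun _ : Fin m => 1) s) * Nx s j := by
    ext s j
    rcases s with s | s
    · have h1 : (C * M) (Sum.inl s) j = (M.transpose.mulVec (C (Sum.inl s))) j := by
        simp only [Matrix.mul_apply, Matrix.mulVec, dotProduct, Matrix.transpose_apply]
        exact Finset.sum_congr rfl fun k _ => mul_comm _ _
      rw [h1, hcr, Matrix.mulVec_cramer, Matrix.det_transpose]
      simp [hNx]
    · have h1 : (C * M) (Sum.inr s) j = M (Sum.inr s) j := by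
        rw [Matrix.mul_apply, Finset.sum_eq_single (Sum.inr s)]
        · simp [hC]
        · intro b _ hb
          rcases b with b | b
          · simp [hC]
          · have : s ≠ b := by
              intro h; exact hb (by rw [h])
            simp [hC, Matrix.one_apply_ne this]
        · intro h; exact absurd (Finset.mem_univ _) h
      rw [h1]
      simp [hNx]
  have hdet : C.det * M.det = M.det ^ 3 * Nx.det := by
    rw [← Matrix.det_mul, hprod, Matrix.det_mul_column]
    congr 1
    rw [Fintype.prod_sum_type]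
    simp
  have hCd : C.det = A.det := by
    rw [hC, Matrix.det_fromBlocks_zero₂₁, Matrix.det_one, mul_one]
  rw [hCd] at hdet
  have : A.det = M.det ^ 2 * Nx.det := by
    apply mul_right_cancel₀ hM
    rw [hdet]; ring
  rw [this]; ring

theorem coo_upd (N m : ℕ) (X : ℕ → ℕ → ℝ) (t : Fin 3 → ℕ) (j : Fin 3) (p : ℕ) :
    (cooM N m X t).updateRow (Sum.inl j) (fun k => X p (finSumFinEquiv k : Fin (3 + m))) =
      cooM N m X (Function.update t j p) := by
  ext s k
  rcases s with s | s
  · by_cases h : s = j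
    · subst h
      simp [cooM]
    · rw [Matrix.updateRow_ne (by simpa using h)]
      simp [cooM, Function.update_of_ne h]
  · rw [Matrix.updateRow_ne (by simp)]
    simp [cooM]

theorem st_COO : ST_COO := by
  intro N m X p q r h0
  have key := coo_gen (cooM N m X ![0, 1, 2]) (by rw [← coo_br]; exact h0)
    (fun i k => X (![p, q, r] i) (finSumFinEquiv k : Fin (3 + m)))
  have h1 : (Matrix.of (Sum.elim
      (fun (i : Fin 3) (k : Fin 3 ⊕ Fin m) => X (![p, q, r] i) (finSumFinEquiv k : Fin (3 + m)))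
      (fun i => cooM N m X ![0, 1, 2] (Sum.inr i))) :
      Matrix (Fin 3 ⊕ Fin m) (Fin 3 ⊕ Fin m) ℝ) = cooM N m X ![p, q, r] := by
    ext s k
    rcases s with s | s <;> rfl
  rw [h1, ← coo_br, ← coo_br, Matrix.det_fin_three] at key
  simp only [Matrix.of_apply, coo_upd] at key
  have u0 : ∀ a, Function.update ![0, 1, 2] (0 : Fin 3) a = ![a, 1, 2] := by
    intro a; ext i; fin_cases i <;> rfl
  have u1 : ∀ a, Function.update ![0, 1, 2] (1 : Fin 3) a = ![0, a, 2] := by
    intro a; ext i; fin_cases i <;> rfl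
  have u2 : ∀ a, Function.update ![0, 1, 2] (2 : Fin 3) a = ![0, 1, a] := by
    intro a; ext i; fin_cases i <;> rfl
  simp only [u0, u1, u2, ← coo_br, Matrix.cons_val_zero, Matrix.cons_val_one,
    Matrix.cons_val] at key
  rw [key]
  ring

end Pool.Agent.Helper54.SP
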