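import Pool.Agent.Helper9.SP.GAux

/-!
Module `GD1`: triples near a centre with two corners whose line passes near the centre.
-/

namespace Pool.Agent.Helper54.SP

theorem gd1_nom (U A r h : ℝ) (q s : ℕ) (hs : s < 8)
    (hc : (q / 2 = 0 ∧ s / 2 = 1) ∨ (q / 2 = 2 ∧ s / 2 = 3)) :
    gauxX r q * (gauxY U A r s - h) - gauxX r s * (gauxY U A r q - h) = (r - 1) * h ∧
      xr q < xr s := by
  have hq : q < 8 := by omega
  interval_cases q <;> interval_cases s <;> first
    | (exfalso; omega)
    | (refine ⟨?_, by decide⟩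
       norm_num [gauxX, gauxY]
       try ring)

theorem gd1_main (k : Bool) (U U' A A' e r : ℝ) (hP : GauxP k U U' A A' e r) (q s : ℕ)
    (hs : s < 8) (h : ℝ)
    (hc : (q / 2 = 0 ∧ s / 2 = 1) ∨ (q / 2 = 2 ∧ s / 2 = 3)) :
    (98 / 100 < h → h < 2 + 2 / 100 → 0 < sb (decide (xr q < xr s)) *
      (cox U U' e q * (coy k U U' A A' e s - h) - cox U U' e s * (coy k U U' A A' e q - h))) ∧
    (h = -1 → 0 < sb (!decide (xr q < xr s)) *
      (cox U U' e q * (coy k U U' A A' e s - h) - cox U U' e s * (coy k U U' A A' e q - h))) := by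
  have hq : q < 8 := by omega
  obtain ⟨n1, n2⟩ := gd1_nom U A r h q s hs hc
  have hr := hP.r1
  have he1 := hP.e1
  have he := hP.e0
  simp only [n2, decide_true, sb, Bool.not_true]
  constructor
  · intro h1 h2
    have key := gaux_D k U U' A A' e r hP q s hq hs h (by linarith) h2
    rw [n1, abs_le] at key
    have : (98 / 100) * (r - 1) ≤ (r - 1) * h := by nlinarith
    simp only [if_true]
    linarith [key.1]
  · intro h1
    have key := gaux_D k U U' A A' e r hP q s hq hs h (by linarith) (by linarith)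
    rw [n1, abs_le, h1] at key
    rw [h1]
    simp only [Bool.false_eq_true, if_false]
    linarith [key.2]

theorem gd1_bb (k : Bool) (U U' A A' e r : ℝ) (hP : GauxP k U U' A A' e r) (h : ℝ) :
    cox U U' e 2 * (coy k U U' A A' e 3 - h) - cox U U' e 3 * (coy k U U' A A' e 2 - h) =
      2 * e * (30 * (U * r - h) - mul8 k 2 * r) := by
  rw [gaux_x k U U' A A' e r hP 2 (by norm_num), gaux_x k U U' A A' e r hP 3 (by norm_num),
    gaux_y k U U' A A' e r hP 2 (by norm_num), gaux_y k U U' A A' e r hP 3 (by norm_num)]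
  cases k <;> norm_num [gauxX, gauxY, gauxa, mul8] <;> ring

theorem st_GD1 : ST_GD1 := by
  intro k U U' A A' e hG q s h hqs hs hc
  have hP := gaux_par k U U' A A' e hG
  set r := U' / U with hrdef
  have hr1 := hP.r1
  have hr2 := hP.r2
  have he := hP.e0
  have hUk := hP.Uk
  have hUk' := hP.Uk'
  have hUr := hP.hU
  rcases hc with hc | hc | hc
  · obtain ⟨m1, m2⟩ := gd1_main k U U' A A' e r hP q s hs h (Or.inl hc)
    refine ⟨?_, fun hh => m2 hh.2⟩
    rintro (⟨h1, h2⟩ | ⟨h1, h2⟩)
    · obtain ⟨c0, c1⟩ := gaux_cen k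
      exact m1 (by linarith) (by linarith)
    · exact m1 (by linarith) (by linarith)
  · have e1 : q = 2 := by omega
    have e2 : s = 3 := by omega
    subst e1 e2
    rw [gd1_bb k U U' A A' e r hP h]
    have hx : ¬ (xr 2 < xr 3) := by decide
    simp only [hx, decide_false, sb, Bool.not_false, if_true, Bool.false_eq_true, if_false]
    have hUr' : U * r < 2 - cen k + 1 / 100 := by rw [← hUr]; exact hUk'
    have hUr2 : 2 - cen k < U * r := by nlinarith [hP.U1]
    constructor
    · rintro (⟨h1, h2⟩ | ⟨h1, h2⟩)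
      · have hm : 15 ≤ mul8 k 2 := by cases k <;> norm_num [mul8]
        have hm2 : 15 ≤ mul8 k 2 * r := by nlinarith
        have : 30 * (U * r - h) - mul8 k 2 * r < 0 := by linarith
        nlinarith
      · subst h1
        have hm : mul8 false 2 = 45 := by norm_num [mul8]
        have hcen : cen false = 0 := by norm_num [cen]
        rw [hcen] at hUr'
        rw [hm]
        have : 30 * (U * r - h) - 45 * r < 0 := by rw [h2]; linarith
        nlinarith
    · rintro ⟨h1, h2⟩
      subst h1
      have hm : mul8 true 2 = 15 := by norm_num [mul8]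
      have hcen : cen true = 1 := by norm_num [cen]
      rw [hcen] at hUr2
      rw [hm]
      have : 0 < 30 * (U * r - h) - 15 * r := by rw [h2]; linarith
      have := mul_pos (mul_pos two_pos he) this
      linarith
  · obtain ⟨m1, m2⟩ := gd1_main k U U' A A' e r hP q s hs h (Or.inr hc)
    refine ⟨?_, fun hh => m2 hh.2⟩
    rintro (⟨h1, h2⟩ | ⟨h1, h2⟩)
    · obtain ⟨c0, c1⟩ := gaux_cen k
      exact m1 (by linarith) (by linarith)
    · exact m1 (by linarith) (by linarith)

end Pool.Agent.Helper54.SP
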