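import Pool.Agent.Helper9.SP.GAux

/-!
Module `GD2`: triples near a centre with two corners, remaining pairs.
-/

namespace Pool.Agent.Helper54.SP

theorem gd2_nom (U A r h : ℝ) (r1 : 1 < r) (r2 : r < 1 + 1 / 100) (U1 : 1 < U)
    (U2 : U < 2 + 1 / 100) (h1 : -1 ≤ h) (h2 : h < 2 + 2 / 100) (q s : ℕ) (hs : s < 8)
    (hc : q / 2 ≤ 1 ∧ 2 ≤ s / 2) :
    (∃ α β : ℝ, 1 ≤ α ∧ α ≤ 2 ∧ -3 ≤ β ∧ β ≤ 3 ∧
      gauxX r q * (gauxY U A r s - h) - gauxX r s * (gauxY U A r q - h) =
        α * (A - U) + β * (r - 1)) ∧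
    (∃ α β : ℝ, 1 ≤ α ∧ α ≤ 2 ∧ -3 ≤ β ∧ β ≤ 3 ∧
      gauxY U A r s - gauxY U A r q = α * (A - U) + β * (r - 1)) := by
  have hs2 : s / 2 = 2 ∨ s / 2 = 3 := by omega
  have hq2 : q / 2 = 0 ∨ q / 2 = 1 := by omega
  have X0 : q / 2 = 0 → gauxX r q = 1 := by
    intro h; have : q = 0 ∨ q = 1 := by omega
    rcases this with rfl | rfl <;> norm_num [gauxX]
  have X1 : q / 2 = 1 → gauxX r q = r := by
    intro h; have : q = 2 ∨ q = 3 := by omega
    rcases this with rfl | rfl <;> norm_num [gauxX]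
  have X2 : s / 2 = 2 → gauxX r s = 1 := by
    intro h; have : s = 4 ∨ s = 5 := by omega
    rcases this with rfl | rfl <;> norm_num [gauxX]
  have X3 : s / 2 = 3 → gauxX r s = r := by
    intro h; have : s = 6 ∨ s = 7 := by omega
    rcases this with rfl | rfl <;> norm_num [gauxX]
  have Y0 : q / 2 = 0 → gauxY U A r q = U := by
    intro h; have : q = 0 ∨ q = 1 := by omega
    rcases this with rfl | rfl <;> norm_num [gauxY]
  have Y1 : q / 2 = 1 → gauxY U A r q = U * r := by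
    intro h; have : q = 2 ∨ q = 3 := by omega
    rcases this with rfl | rfl <;> norm_num [gauxY]
  have Y2 : s / 2 = 2 → gauxY U A r s = A := by
    intro h; have : s = 4 ∨ s = 5 := by omega
    rcases this with rfl | rfl <;> norm_num [gauxY]
  have Y3 : s / 2 = 3 → gauxY U A r s = A * r := by
    intro h; have : s = 6 ∨ s = 7 := by omega
    rcases this with rfl | rfl <;> norm_num [gauxY]
  rcases hq2 with hq2 | hq2 <;> rcases hs2 with hs2 | hs2
  · rw [X0 hq2, X2 hs2, Y0 hq2, Y2 hs2]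
    exact ⟨⟨1, 0, by norm_num, by norm_num, by norm_num, by norm_num, by ring⟩,
      ⟨1, 0, by norm_num, by norm_num, by norm_num, by norm_num, by ring⟩⟩
  · rw [X0 hq2, X3 hs2, Y0 hq2, Y3 hs2]
    exact ⟨⟨r, h, by linarith, by linarith, by linarith, by linarith, by ring⟩,
      ⟨r, U, by linarith, by linarith, by linarith, by linarith, by ring⟩⟩
  · rw [X1 hq2, X2 hs2, Y1 hq2, Y2 hs2]
    exact ⟨⟨r, -h, by linarith, by linarith, by linarith, by linarith, by ring⟩,
      ⟨1, -U, by norm_num, by norm_num, by linarith, by linarith, by ring⟩⟩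
  · rw [X1 hq2, X3 hs2, Y1 hq2, Y3 hs2]
    exact ⟨⟨r * r, 0, by nlinarith, by nlinarith, by norm_num, by norm_num, by ring⟩,
      ⟨r, 0, by linarith, by linarith, by norm_num, by norm_num, by ring⟩⟩

theorem gd2_aa (k : Bool) (U U' A A' e r : ℝ) (hP : GauxP k U U' A A' e r) (h : ℝ)
    (h2 : h < 2 + 2 / 100) :
    coy k U U' A A' e 1 < coy k U U' A A' e 0 ∧
    cox U U' e 0 * (coy k U U' A A' e 1 - h) - cox U U' e 1 * (coy k U U' A A' e 0 - h) < 0 := by
  rw [gaux_x k U U' A A' e r hP 0 (by norm_num), gaux_x k U U' A A' e r hP 1 (by norm_num),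
    gaux_y k U U' A A' e r hP 0 (by norm_num), gaux_y k U U' A A' e r hP 1 (by norm_num)]
  have he := hP.e0
  have hU := hP.U1
  constructor
  · norm_num [gauxY, mul8]
    linarith
  · have : (gauxX r 0 + gauxa 0 * e) * (gauxY U A r 1 + mul8 k 1 * e - h) -
        (gauxX r 1 + gauxa 1 * e) * (gauxY U A r 0 + mul8 k 0 * e - h) =
        -(2 * e * (10 + U - h)) := by
      norm_num [gauxX, gauxY, gauxa, mul8]
      ring
    rw [this]
    have : 0 < 2 * e * (10 + U - h) := mul_pos (by linarith) (by linarith)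
    linarith

theorem gd2_cc (k : Bool) (U U' A A' e r : ℝ) (hP : GauxP k U U' A A' e r) (h : ℝ)
    (h2 : h < 2 + 2 / 100) :
    coy k U U' A A' e 5 < coy k U U' A A' e 4 ∧
    cox U U' e 4 * (coy k U U' A A' e 5 - h) - cox U U' e 5 * (coy k U U' A A' e 4 - h) < 0 := by
  rw [gaux_x k U U' A A' e r hP 4 (by norm_num), gaux_x k U U' A A' e r hP 5 (by norm_num),
    gaux_y k U U' A A' e r hP 4 (by norm_num), gaux_y k U U' A A' e r hP 5 (by norm_num)]
  have he := hP.e0
  have hA := hP.A1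
  constructor
  · norm_num [gauxY, mul8]
    linarith
  · have : (gauxX r 4 + gauxa 4 * e) * (gauxY U A r 5 + mul8 k 5 * e - h) -
        (gauxX r 5 + gauxa 5 * e) * (gauxY U A r 4 + mul8 k 4 * e - h) =
        -(e * (20 + A - h)) := by
      norm_num [gauxX, gauxY, gauxa, mul8]
      ring
    rw [this]
    have : 0 < e * (20 + A - h) := mul_pos he (by linarith)
    linarith

theorem gd2_dd (k : Bool) (U U' A A' e r : ℝ) (hP : GauxP k U U' A A' e r) (h : ℝ)
    (h1 : -1 ≤ h) :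
    coy k U U' A A' e 7 < coy k U U' A A' e 6 ∧
    cox U U' e 6 * (coy k U U' A A' e 7 - h) - cox U U' e 7 * (coy k U U' A A' e 6 - h) < 0 := by
  rw [gaux_x k U U' A A' e r hP 6 (by norm_num), gaux_x k U U' A A' e r hP 7 (by norm_num),
    gaux_y k U U' A A' e r hP 6 (by norm_num), gaux_y k U U' A A' e r hP 7 (by norm_num)]
  have he := hP.e0
  have hA := hP.A2
  have hr := hP.r1
  have hr2 := hP.r2
  have hA1 := hP.A1
  have hAr : A * r < 2 + 5 / 100 := by nlinarith
  constructor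
  · norm_num [gauxY, mul8]
    linarith
  · have : (gauxX r 6 + gauxa 6 * e) * (gauxY U A r 7 + mul8 k 7 * e - h) -
        (gauxX r 7 + gauxa 7 * e) * (gauxY U A r 6 + mul8 k 6 * e - h) =
        -(e * (248 * r - 62 * (A * r - h))) := by
      norm_num [gauxX, gauxY, gauxa, mul8]
      ring
    rw [this]
    have : 0 < e * (248 * r - 62 * (A * r - h)) := mul_pos he (by linarith)
    linarith

theorem st_GD2 : ST_GD2 := by
  intro k U U' A A' e hG q s h hqs hs hc hh
  have hP := gaux_par k U U' A A' e hG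
  set r := U' / U with hrdef
  have hr1 := hP.r1
  have hr2 := hP.r2
  have he := hP.e0
  have he2 := hP.e2
  have hg := hP.g
  obtain ⟨c0, c1⟩ := gaux_cen k
  have h1 : -1 ≤ h := by
    rcases hh with ⟨h1, h2⟩ | ⟨h1, h2⟩ | ⟨h1, h2⟩ <;> linarith
  have h2 : h < 2 + 2 / 100 := by
    rcases hh with ⟨h1, h2⟩ | ⟨h1, h2⟩ | ⟨h1, h2⟩ <;> linarith
  have hcase : (q = 0 ∧ s = 1) ∨ (q = 4 ∧ s = 5) ∨ (q = 6 ∧ s = 7) ∨
      (q / 2 ≤ 1 ∧ 2 ≤ s / 2) := by
    unfold ctp at hc
    omega
  rcases hcase with ⟨rfl, rfl⟩ | ⟨rfl, rfl⟩ | ⟨rfl, rfl⟩ | hcase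
  · obtain ⟨m1, m2⟩ := gd2_aa k U U' A A' e r hP h h2
    exact ⟨fun hx => absurd hx (not_lt.mpr m1.le), fun _ => m2⟩
  · obtain ⟨m1, m2⟩ := gd2_cc k U U' A A' e r hP h h2
    exact ⟨fun hx => absurd hx (not_lt.mpr m1.le), fun _ => m2⟩
  · obtain ⟨m1, m2⟩ := gd2_dd k U U' A A' e r hP h h1
    exact ⟨fun hx => absurd hx (not_lt.mpr m1.le), fun _ => m2⟩
  · have hq : q < 8 := by omega
    have key := gaux_D k U U' A A' e r hP q s hq hs h h1 h2
    obtain ⟨⟨α, β, a1, a2, b1, b2, hN⟩, ⟨α', β', a1', a2', b1', b2', hN'⟩⟩ :=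
      gd2_nom U A r h hr1 hr2 hP.U1 hP.U2 h1 h2 q s hs hcase
    rw [hN, abs_le] at key
    have hy1 := gaux_y k U U' A A' e r hP q hq
    have hy2 := gaux_y k U U' A A' e r hP s hs
    have hm1 := gaux_m k q
    have hm2 := gaux_m k s
    rw [abs_le] at hm1 hm2
    have hd : coy k U U' A A' e s - coy k U U' A A' e q =
        α' * (A - U) + β' * (r - 1) + (mul8 k s - mul8 k q) * e := by
      rw [hy1, hy2]; linarith
    have hme1 : (mul8 k s - mul8 k q) * e ≤ 248 * e :=
      mul_le_mul_of_nonneg_right (by linarith [hm1.1, hm2.2]) he.le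
    have hme2 : -248 * e ≤ (mul8 k s - mul8 k q) * e :=
      mul_le_mul_of_nonneg_right (by linarith [hm1.2, hm2.1]) he.le
    have hb1 : β * (r - 1) ≤ 3 * (r - 1) := mul_le_mul_of_nonneg_right b2 (by linarith)
    have hb2 : -3 * (r - 1) ≤ β * (r - 1) := mul_le_mul_of_nonneg_right b1 (by linarith)
    have hb1' : β' * (r - 1) ≤ 3 * (r - 1) := mul_le_mul_of_nonneg_right b2' (by linarith)
    have hb2' : -3 * (r - 1) ≤ β' * (r - 1) := mul_le_mul_of_nonneg_right b1' (by linarith)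
    rcases le_total U A with hUA | hUA
    · rw [abs_of_nonneg (by linarith)] at he2 hg
      have hα : A - U ≤ α * (A - U) := by nlinarith
      have hα' : A - U ≤ α' * (A - U) := by nlinarith
      constructor
      · intro _
        linarith [key.1]
      · intro hx
        exfalso
        linarith
    · rw [abs_of_nonpos (by linarith)] at he2 hg
      have hα : α * (A - U) ≤ A - U := by nlinarith
      have hα' : α' * (A - U) ≤ A - U := by nlinarith
      constructor
      · intro hx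
        exfalso
        linarith
      · intro _
        linarith [key.2]

end Pool.Agent.Helper54.SP
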