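import Pool.Agent.Helper9.SP.GAux

/-!
Module `GS`: the order of the slopes of the corners of a gate.
-/

namespace Pool.Agent.Helper54.SP

theorem gs_pos (k : Bool) (U U' A A' e r : ℝ) (hP : GauxP k U U' A A' e r) (t : ℕ) (ht : t < 8) :
    0 < cox U U' e t := by
  rw [gaux_x k U U' A A' e r hP t ht]
  have h1 : 1 ≤ gauxX r t := by
    unfold gauxX
    split_ifs
    · exact le_refl _
    · exact hP.r1.le
  have h2 := gaux_a t
  rw [abs_le] at h2
  have h3 : -31 * e ≤ gauxa t * e := mul_le_mul_of_nonneg_right h2.1 hP.e0.le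
  have h4 := hP.e3
  linarith

theorem gs_low (k : Bool) (U U' A A' e r : ℝ) (hP : GauxP k U U' A A' e r) :
    1 < 30 * U - U * r - 10 * r - mul8 k 2 := by
  have h1 := hP.Uk
  have h2 := hP.Uk'
  have h3 := hP.hU
  have h4 := hP.r2
  rw [h3] at h2
  cases k
  · norm_num [cen, mul8] at *
    linarith
  · norm_num [cen, mul8] at *
    linarith

theorem gs_21 (k : Bool) (U U' A A' e r : ℝ) (hP : GauxP k U U' A A' e r) :
    coy k U U' A A' e 2 * cox U U' e 1 < coy k U U' A A' e 1 * cox U U' e 2 := by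
  rw [gaux_x k U U' A A' e r hP 1 (by norm_num), gaux_x k U U' A A' e r hP 2 (by norm_num),
    gaux_y k U U' A A' e r hP 1 (by norm_num), gaux_y k U U' A A' e r hP 2 (by norm_num)]
  have hl := gs_low k U U' A A' e r hP
  have he := hP.e0
  have he3 := hP.e3
  have hm := gaux_m k 2
  rw [abs_le] at hm
  have h0 : (gauxY U A r 1 + mul8 k 1 * e) * (gauxX r 2 + gauxa 2 * e) -
      (gauxY U A r 2 + mul8 k 2 * e) * (gauxX r 1 + gauxa 1 * e) =
      e * ((30 * U - U * r - 10 * r - mul8 k 2) - (300 + mul8 k 2) * e) := by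
    have h1 : gauxY U A r 1 = U := by norm_num [gauxY]
    have h2 : gauxY U A r 2 = U * r := by norm_num [gauxY]
    have h3 : gauxX r 2 = r := by norm_num [gauxX]
    have h4 : gauxX r 1 = 1 := by norm_num [gauxX]
    have h5 : gauxa 2 = 30 := by norm_num [gauxa]
    have h6 : gauxa 1 = 1 := by norm_num [gauxa]
    have h7 : mul8 k 1 = -10 := by norm_num [mul8]
    rw [h1, h2, h3, h4, h5, h6, h7]
    ring
  have h1 : (300 + mul8 k 2) * e ≤ 424 * e := mul_le_mul_of_nonneg_right (by linarith [hm.2]) he.le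
  have h2 : 0 < e * ((30 * U - U * r - 10 * r - mul8 k 2) - (300 + mul8 k 2) * e) :=
    mul_pos he (by linarith)
  linarith

theorem gs_10 (k : Bool) (U U' A A' e r : ℝ) (hP : GauxP k U U' A A' e r) :
    coy k U U' A A' e 1 * cox U U' e 0 < coy k U U' A A' e 0 * cox U U' e 1 := by
  rw [gaux_x k U U' A A' e r hP 1 (by norm_num), gaux_x k U U' A A' e r hP 0 (by norm_num),
    gaux_y k U U' A A' e r hP 1 (by norm_num), gaux_y k U U' A A' e r hP 0 (by norm_num)]
  have he := hP.e0
  have hU := hP.U1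
  have h0 : (gauxY U A r 0 + mul8 k 0 * e) * (gauxX r 1 + gauxa 1 * e) -
      (gauxY U A r 1 + mul8 k 1 * e) * (gauxX r 0 + gauxa 0 * e) =
      e * (20 + 2 * U) := by
    norm_num [gauxX, gauxY, gauxa, mul8]
    ring
  have h2 : 0 < e * (20 + 2 * U) := mul_pos he (by linarith)
  linarith

theorem gs_03 (k : Bool) (U U' A A' e r : ℝ) (hP : GauxP k U U' A A' e r) :
    coy k U U' A A' e 0 * cox U U' e 3 < coy k U U' A A' e 3 * cox U U' e 0 := by
  rw [gaux_x k U U' A A' e r hP 0 (by norm_num), gaux_x k U U' A A' e r hP 3 (by norm_num),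
    gaux_y k U U' A A' e r hP 0 (by norm_num), gaux_y k U U' A A' e r hP 3 (by norm_num)]
  have hl := gs_low k U U' A A' e r hP
  have he := hP.e0
  have he3 := hP.e3
  have hm := gaux_m k 2
  rw [abs_le] at hm
  have h0 : (gauxY U A r 3 + mul8 k 3 * e) * (gauxX r 0 + gauxa 0 * e) -
      (gauxY U A r 0 + mul8 k 0 * e) * (gauxX r 3 + gauxa 3 * e) =
      e * ((30 * U - U * r - 10 * r - mul8 k 2) + (300 + mul8 k 2) * e) := by
    have h1 : gauxY U A r 0 = U := by norm_num [gauxY]
    have h2 : gauxY U A r 3 = U * r := by norm_num [gauxY]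
    have h3 : gauxX r 3 = r := by norm_num [gauxX]
    have h4 : gauxX r 0 = 1 := by norm_num [gauxX]
    have h5 : gauxa 3 = -30 := by norm_num [gauxa]
    have h6 : gauxa 0 = -1 := by norm_num [gauxa]
    have h7 : mul8 k 0 = 10 := by norm_num [mul8]
    have h8 : mul8 k 3 = -mul8 k 2 := by cases k <;> norm_num [mul8]
    rw [h1, h2, h3, h4, h5, h6, h7, h8]
    ring
  have h1 : -424 * e ≤ (300 + mul8 k 2) * e := mul_le_mul_of_nonneg_right (by linarith [hm.1]) he.le
  have h2 : 0 < e * ((30 * U - U * r - 10 * r - mul8 k 2) + (300 + mul8 k 2) * e) :=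
    mul_pos he (by linarith)
  linarith

theorem gs_up (k : Bool) (U U' A A' e r : ℝ) (hP : GauxP k U U' A A' e r) :
    1 < 124 - 31 * A - 10 * r - A * r / 2 := by
  have h1 := hP.A2
  have h2 := hP.r2
  have h3 := hP.r1
  have h4 := hP.A1
  have : A * r ≤ 3 := by nlinarith
  linarith

theorem gs_75 (k : Bool) (U U' A A' e r : ℝ) (hP : GauxP k U U' A A' e r) :
    coy k U U' A A' e 7 * cox U U' e 5 < coy k U U' A A' e 5 * cox U U' e 7 := by
  rw [gaux_x k U U' A A' e r hP 5 (by norm_num), gaux_x k U U' A A' e r hP 7 (by norm_num),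
    gaux_y k U U' A A' e r hP 5 (by norm_num), gaux_y k U U' A A' e r hP 7 (by norm_num)]
  have hl := gs_up k U U' A A' e r hP
  have he := hP.e0
  have h0 : (gauxY U A r 5 + mul8 k 5 * e) * (gauxX r 7 + gauxa 7 * e) -
      (gauxY U A r 7 + mul8 k 7 * e) * (gauxX r 5 + gauxa 5 * e) =
      e * ((124 - 31 * A - 10 * r - A * r / 2) + 372 * e) := by
    norm_num [gauxX, gauxY, gauxa, mul8]
    ring
  have h2 : 0 < e * ((124 - 31 * A - 10 * r - A * r / 2) + 372 * e) :=
    mul_pos he (by linarith)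
  linarith

theorem gs_54 (k : Bool) (U U' A A' e r : ℝ) (hP : GauxP k U U' A A' e r) :
    coy k U U' A A' e 5 * cox U U' e 4 < coy k U U' A A' e 4 * cox U U' e 5 := by
  rw [gaux_x k U U' A A' e r hP 5 (by norm_num), gaux_x k U U' A A' e r hP 4 (by norm_num),
    gaux_y k U U' A A' e r hP 5 (by norm_num), gaux_y k U U' A A' e r hP 4 (by norm_num)]
  have he := hP.e0
  have hA := hP.A1
  have h0 : (gauxY U A r 4 + mul8 k 4 * e) * (gauxX r 5 + gauxa 5 * e) -
      (gauxY U A r 5 + mul8 k 5 * e) * (gauxX r 4 + gauxa 4 * e) =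
      e * (20 + A) := by
    norm_num [gauxX, gauxY, gauxa, mul8]
    ring
  have h2 : 0 < e * (20 + A) := mul_pos he (by linarith)
  linarith

theorem gs_46 (k : Bool) (U U' A A' e r : ℝ) (hP : GauxP k U U' A A' e r) :
    coy k U U' A A' e 4 * cox U U' e 6 < coy k U U' A A' e 6 * cox U U' e 4 := by
  rw [gaux_x k U U' A A' e r hP 4 (by norm_num), gaux_x k U U' A A' e r hP 6 (by norm_num),
    gaux_y k U U' A A' e r hP 4 (by norm_num), gaux_y k U U' A A' e r hP 6 (by norm_num)]
  have hl := gs_up k U U' A A' e r hP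
  have he := hP.e0
  have he3 := hP.e3
  have h0 : (gauxY U A r 6 + mul8 k 6 * e) * (gauxX r 4 + gauxa 4 * e) -
      (gauxY U A r 4 + mul8 k 4 * e) * (gauxX r 6 + gauxa 6 * e) =
      e * ((124 - 31 * A - 10 * r - A * r / 2) - 372 * e) := by
    norm_num [gauxX, gauxY, gauxa, mul8]
    ring
  have h2 : 0 < e * ((124 - 31 * A - 10 * r - A * r / 2) - 372 * e) :=
    mul_pos he (by linarith)
  linarith

theorem gs_37 (k : Bool) (U U' A A' e r : ℝ) (hP : GauxP k U U' A A' e r) (h : U < A) :
    coy k U U' A A' e 3 * cox U U' e 7 < coy k U U' A A' e 7 * cox U U' e 3 := by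
  have key := gaux_D k U U' A A' e r hP 3 7 (by norm_num) (by norm_num) 0 (by norm_num)
    (by norm_num)
  have h1 : gauxX r 3 * (gauxY U A r 7 - 0) - gauxX r 7 * (gauxY U A r 3 - 0) =
      r * r * (A - U) := by
    norm_num [gauxX, gauxY]; ring
  rw [h1, abs_le] at key
  have he2 := hP.e2
  rw [abs_of_pos (by linarith)] at he2
  have hr := hP.r1
  have he := hP.e0
  have : A - U ≤ r * r * (A - U) := by
    have : 1 ≤ r * r := by nlinarith
    nlinarith
  linarith [key.1]

theorem gs_62 (k : Bool) (U U' A A' e r : ℝ) (hP : GauxP k U U' A A' e r) (h : A ≤ U) :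
    coy k U U' A A' e 6 * cox U U' e 2 < coy k U U' A A' e 2 * cox U U' e 6 := by
  have key := gaux_D k U U' A A' e r hP 6 2 (by norm_num) (by norm_num) 0 (by norm_num)
    (by norm_num)
  have h1 : gauxX r 6 * (gauxY U A r 2 - 0) - gauxX r 2 * (gauxY U A r 6 - 0) =
      r * r * (U - A) := by
    norm_num [gauxX, gauxY]; ring
  rw [h1, abs_le] at key
  have he2 := hP.e2
  rw [abs_of_nonpos (by linarith)] at he2
  have hr := hP.r1
  have he := hP.e0
  have : U - A ≤ r * r * (U - A) := by
    have : 1 ≤ r * r := by nlinarith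
    nlinarith
  linarith [key.1]

theorem st_GS : ST_GS := by
  intro k U U' A A' e b hG hb s t hs ht hst
  have hP := gaux_par k U U' A A' e hG
  set r := U' / U with hrdef
  have hpos := gs_pos k U U' A A' e r hP
  have conv : ∀ s t, s < 8 → t < 8 → coy k U U' A A' e s * cox U U' e t <
      coy k U U' A A' e t * cox U U' e s →
      coy k U U' A A' e s / cox U U' e s < coy k U U' A A' e t / cox U U' e t := by
    intro s t hs ht h
    rw [div_lt_div_iff₀ (hpos s hs) (hpos t ht)]
    exact h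
  suffices h : coy k U U' A A' e s / cox U U' e s < coy k U U' A A' e t / cox U U' e t by
    rw [div_lt_div_iff₀ (hpos s hs) (hpos t ht)] at h
    exact h
  have h1 := conv 2 1 (by norm_num) (by norm_num) (gs_21 k U U' A A' e r hP)
  have h2 := conv 1 0 (by norm_num) (by norm_num) (gs_10 k U U' A A' e r hP)
  have h3 := conv 0 3 (by norm_num) (by norm_num) (gs_03 k U U' A A' e r hP)
  have h4 := conv 7 5 (by norm_num) (by norm_num) (gs_75 k U U' A A' e r hP)
  have h5 := conv 5 4 (by norm_num) (by norm_num) (gs_54 k U U' A A' e r hP)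
  have h6 := conv 4 6 (by norm_num) (by norm_num) (gs_46 k U U' A A' e r hP)
  generalize hf : (fun t => coy k U U' A A' e t / cox U U' e t) = f at *
  have hft : ∀ t, coy k U U' A A' e t / cox U U' e t = f t := by
    intro t; rw [← hf]
  rw [hft, hft] at h1 h2 h3 h4 h5 h6 ⊢
  cases b
  · have hUA : A ≤ U := by
      by_contra hcon
      exact absurd (hb.2 (not_le.mp hcon)) (by decide)
    have h7 := conv 6 2 (by norm_num) (by norm_num) (gs_62 k U U' A A' e r hP hUA)
    rw [hft, hft] at h7
    interval_cases s <;> interval_cases t <;>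
      first
        | (exfalso; revert hst; decide)
        | linarith
  · have hUA : U < A := hb.1 rfl
    have h7 := conv 3 7 (by norm_num) (by norm_num) (gs_37 k U U' A A' e r hP hUA)
    rw [hft, hft] at h7
    interval_cases s <;> interval_cases t <;>
      first
        | (exfalso; revert hst; decide)
        | linarith

end Pool.Agent.Helper54.SP
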