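import Pool.Agent.Helper54.SP.Stmts

/-!
Module `KINJ`: the keys are injective and bounded.
-/

namespace Pool.Agent.Helper54.SP

theorem kinj_xr : ∀ s, s < 8 → xr s < 8 ∧ ∀ t, t < 8 → xr s = xr t → s = t := by decide

/-- the slope rank of a corner -/
def kinjF (b : Bool) (t : ℕ) : ℕ := sr t + if (if 4 ≤ t then b else !b) then 4 else 0

theorem kinj_F : ∀ b : Bool, ∀ s, s < 8 → kinjF b s < 8 ∧
    ∀ t, t < 8 → kinjF b s = kinjF b t → s = t := by decide

theorem kinj_sr : ∀ s, s < 8 → sr s < 4 := by decide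

theorem kinj_mem (Γ : List Gt) (p : ℕ) (h4 : 4 ≤ p) (hp : p < NN Γ) :
    gat Γ p ∈ Γ ∧ grp p - 1 < Γ.length ∧ 1 ≤ grp p := by
  have h1 : grp p - 1 < Γ.length := by
    unfold grp NN at *; omega
  refine ⟨?_, h1, by unfold grp; omega⟩
  unfold gat
  rw [List.getD_eq_getElem _ _ h1]
  exact List.getElem_mem h1

theorem kinj_eq (p q : ℕ) (h1 : grp p = grp q) (h2 : crn p = crn q) : p = q := by
  unfold grp at h1; unfold crn at h2; omega

theorem kinj_hi (Γ : List Gt) (p : ℕ) (hne : (gat Γ p).u ≠ (gat Γ p).a) :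
    sr (crn p) + (if hi Γ p then 4 else 0) =
      kinjF (decide ((gat Γ p).u < (gat Γ p).a)) (crn p) := by
  unfold kinjF hi
  have h1 : (!decide ((gat Γ p).u < (gat Γ p).a)) = decide ((gat Γ p).a < (gat Γ p).u) := by
    rw [← decide_not]
    apply decide_eq_decide.mpr
    omega
  rw [h1]

theorem kinj_wir (Γ : List Gt) (nw : ℕ) (h : WF Γ nw) (p : ℕ) (h4 : 4 ≤ p) (hp : p < NN Γ) :
    wir Γ p < nw := by
  obtain ⟨hm, _, _⟩ := kinj_mem Γ p h4 hp
  obtain ⟨w1, w2, w3, w4, _⟩ := h.wires _ hm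
  unfold wir
  split_ifs <;> omega

/-- the rank inside a wire -/
def kinjR (Γ : List Gt) (p : ℕ) : ℕ :=
  if crn p % 2 = 0 then Γ.length + (gat Γ p).c else Γ.length - 1 - (gat Γ p).c

theorem kinj_R (Γ : List Gt) (nw : ℕ) (h : WF Γ nw) (p : ℕ) (h4 : 4 ≤ p) (hp : p < NN Γ) :
    kinjR Γ p < 2 * Γ.length := by
  obtain ⟨hm, _, _⟩ := kinj_mem Γ p h4 hp
  have := h.clt _ hm
  unfold kinjR
  split_ifs <;> omega

theorem kinj_yk (Γ : List Gt) (p : ℕ) (h4 : 4 ≤ p) :
    yk Γ p = 2 + wir Γ p * (2 * Γ.length) + kinjR Γ p := by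
  unfold yk kinjR
  rw [if_neg (by omega)]

theorem kinj_divmod (K w w' r r' : ℕ) (h : w * (2 * K) + r = w' * (2 * K) + r')
    (hr : r < 2 * K) (hr' : r' < 2 * K) : w = w' ∧ r = r' := by
  have h1 : w = w' := by
    rcases lt_trichotomy w w' with hlt | heq | hgt
    · exfalso
      have : (w + 1) * (2 * K) ≤ w' * (2 * K) := Nat.mul_le_mul_right _ hlt
      have e : (w + 1) * (2 * K) = w * (2 * K) + 2 * K := by ring
      omega
    · exact heq
    · exfalso
      have : (w' + 1) * (2 * K) ≤ w * (2 * K) := Nat.mul_le_mul_right _ hgt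
      have e : (w' + 1) * (2 * K) = w' * (2 * K) + 2 * K := by ring
      omega
  subst h1
  exact ⟨rfl, by omega⟩

theorem kinj_y (Γ : List Gt) (nw : ℕ) (h : WF Γ nw) (p q : ℕ) (h4 : 4 ≤ p) (hp : p < NN Γ)
    (h4' : 4 ≤ q) (hq : q < NN Γ) (he : yk Γ p = yk Γ q) : p = q := by
  rw [kinj_yk Γ p h4, kinj_yk Γ q h4'] at he
  obtain ⟨hw, hr⟩ := kinj_divmod Γ.length (wir Γ p) (wir Γ q) (kinjR Γ p) (kinjR Γ q) (by omega)
    (kinj_R Γ nw h p h4 hp) (kinj_R Γ nw h q h4' hq)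
  obtain ⟨hm, hl, hg⟩ := kinj_mem Γ p h4 hp
  obtain ⟨hm', hl', hg'⟩ := kinj_mem Γ q h4' hq
  have c1 := h.clt _ hm
  have c2 := h.clt _ hm'
  have hc : (gat Γ p).c = (gat Γ q).c ∧ crn p % 2 = crn q % 2 := by
    unfold kinjR at hr
    split_ifs at hr <;> omega
  have hgrp : grp p - 1 = grp q - 1 := h.cinj _ _ hl hl' hc.1
  have hgrp2 : grp p = grp q := by omega
  have hgat : gat Γ p = gat Γ q := by unfold gat; rw [hgrp]
  apply kinj_eq p q hgrp2
  have hcp : crn p < 8 := by unfold crn; omega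
  have hcq : crn q < 8 := by unfold crn; omega
  obtain ⟨w1, w2, w3, w4, w5, w6, w7, w8⟩ := h.wires _ hm'
  have : crn p / 2 = crn q / 2 := by
    unfold wir at hw
    rw [hgat] at hw
    split_ifs at hw <;> omega
  omega

theorem kinj_small (p : ℕ) (h : p < 4) (Γ : List Gt) :
    xk p = p - 2 ∧ yk Γ p = p - 2 := by
  unfold xk yk
  rw [if_pos h, if_pos h]
  exact ⟨rfl, rfl⟩

theorem kinj_xk (p : ℕ) (h : 4 ≤ p) : xk p = 8 * grp p - 6 + xr (crn p) := by
  unfold xk
  rw [if_neg (by omega)]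

theorem st_KINJ : ST_KINJ := by
  intro Γ nw h
  refine ⟨?_, ?_, ?_, ?_, ?_⟩
  · intro p q h2 h2' hp hq he
    rcases Nat.lt_or_ge p 4 with h4 | h4 <;> rcases Nat.lt_or_ge q 4 with h4' | h4'
    · rw [(kinj_small p h4 Γ).1, (kinj_small q h4' Γ).1] at he
      omega
    · rw [(kinj_small p h4 Γ).1, kinj_xk q h4'] at he
      have := (kinj_mem Γ q h4' hq).2.2
      omega
    · rw [(kinj_small q h4' Γ).1, kinj_xk p h4] at he
      have := (kinj_mem Γ p h4 hp).2.2
      omega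
    · rw [kinj_xk p h4, kinj_xk q h4'] at he
      have g1 := (kinj_mem Γ p h4 hp).2.2
      have g2 := (kinj_mem Γ q h4' hq).2.2
      have hcp : crn p < 8 := by unfold crn; omega
      have hcq : crn q < 8 := by unfold crn; omega
      obtain ⟨x1, x2⟩ := kinj_xr _ hcp
      obtain ⟨x3, x4⟩ := kinj_xr _ hcq
      have hg : grp p = grp q := by omega
      exact kinj_eq p q hg (x2 _ hcq (by omega))
  · intro p q h2 h2' hp hq he
    rcases Nat.lt_or_ge p 4 with h4 | h4 <;> rcases Nat.lt_or_ge q 4 with h4' | h4'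
    · rw [(kinj_small p h4 Γ).2, (kinj_small q h4' Γ).2] at he
      omega
    · rw [(kinj_small p h4 Γ).2, kinj_yk Γ q h4'] at he
      omega
    · rw [(kinj_small q h4' Γ).2, kinj_yk Γ p h4] at he
      omega
    · exact kinj_y Γ nw h p q h4 hp h4' hq he
  · intro p q h4 h4' hp hq he
    obtain ⟨hm, hl, hg⟩ := kinj_mem Γ p h4 hp
    obtain ⟨hm', hl', hg'⟩ := kinj_mem Γ q h4' hq
    have n1 := (h.wires _ hm).2.2.2.2.1
    have n2 := (h.wires _ hm').2.2.2.2.1
    unfold sk at he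
    rw [kinj_hi Γ p n1, kinj_hi Γ q n2] at he
    have hcp : crn p < 8 := by unfold crn; omega
    have hcq : crn q < 8 := by unfold crn; omega
    obtain ⟨x1, x2⟩ := kinj_F (decide ((gat Γ p).u < (gat Γ p).a)) _ hcp
    obtain ⟨x3, x4⟩ := kinj_F (decide ((gat Γ q).u < (gat Γ q).a)) _ hcq
    have hg : grp p = grp q := by omega
    have hgat : gat Γ p = gat Γ q := by unfold gat; rw [hg]
    apply kinj_eq p q hg
    apply x2 _ hcq
    rw [hgat] at he ⊢
    rw [hgat] at x1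
    omega
  · intro p hp
    have hcp : crn p < 8 := by unfold crn; omega
    have s4 := kinj_sr _ hcp
    have x8 := (kinj_xr _ hcp).1
    have hK : grp p ≤ Γ.length := by unfold grp NN at *; omega
    have hBG : 0 ≤ 2 * Γ.length * (nw + 1) := Nat.zero_le _
    refine ⟨?_, ?_, ?_⟩
    · unfold xk BG
      split_ifs <;> omega
    · rcases Nat.lt_or_ge p 4 with h4 | h4
      · unfold yk BG
        rw [if_pos h4]
        omega
      · rw [kinj_yk Γ p h4]
        have hw := kinj_wir Γ nw h p h4 hp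
        have hR := kinj_R Γ nw h p h4 hp
        have : (wir Γ p + 1) * (2 * Γ.length) ≤ nw * (2 * Γ.length) := Nat.mul_le_mul_right _ hw
        have e1 : (wir Γ p + 1) * (2 * Γ.length) = wir Γ p * (2 * Γ.length) + 2 * Γ.length := by
          ring
        have e2 : 2 * Γ.length * (nw + 1) = nw * (2 * Γ.length) + 2 * Γ.length := by ring
        unfold BG
        omega
    · unfold sk BG
      split_ifs <;> omega
  · intro p h4 hp
    obtain ⟨hm, hl, hg⟩ := kinj_mem Γ p h4 hp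
    refine ⟨hm, ?_, ?_, hl⟩
    · rw [kinj_xk p h4]; omega
    · rw [kinj_yk Γ p h4]; omega

end Pool.Agent.Helper54.SP
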