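import Pool.Agent.Helper54.SP.Stmts

/-!
Common estimates for the gate coordinates of the `SPR_d` project.
-/

namespace Pool.Agent.Helper54.SP

/-- consequences of the hypotheses on a gate -/
structure GauxP (k : Bool) (U U' A A' e r : ℝ) : Prop where
  r1 : 1 < r
  r2 : r < 1 + 1 / 100
  U1 : 1 < U
  U2 : U < 2 + 1 / 100
  A1 : 1 < A
  A2 : A < 2 + 1 / 100
  hU : U' = U * r
  hA : A' = A * r
  hr : U' / U = r
  e0 : 0 < e
  e1 : 10000000 * e ≤ r - 1
  e2 : 10000000 * e ≤ |A - U|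
  e3 : e ≤ 1 / 1000000
  g : 1000 * (r - 1) < |A - U|
  Uk : 2 - cen k < U
  Uk' : U' < 2 - cen k + 1 / 100
  Ak : 2 - cen k < A
  Ak' : A' < 2 - cen k + 1 / 100

theorem gaux_cen (k : Bool) : 0 ≤ cen k ∧ cen k ≤ 1 := by
  unfold cen; split_ifs <;> norm_num

theorem gaux_par (k : Bool) (U U' A A' e : ℝ) (h : GH k U U' A A' e) :
    GauxP k U U' A A' e (U' / U) := by
  obtain ⟨c0, c1⟩ := gaux_cen k
  have hU0 := h.U0
  have hU1 := h.U1
  have hU2 := h.U2
  have hA0 := h.A0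
  have hA1 := h.A1
  have hA2 := h.A2
  have heq := h.eq
  have hgap := h.gap
  have he0 := h.e0
  have he1 := h.e1
  have Upos : 0 < U := by linarith
  have hUr : U' = U * (U' / U) := by field_simp
  have hAr : A' = A * (U' / U) := by
    field_simp
    linarith
  have hr1 : 1 < U' / U := by
    rw [lt_div_iff₀ Upos]; linarith
  have hr2 : U' / U < 1 + 1 / 100 := by
    rw [div_lt_iff₀ Upos]; nlinarith
  have hd : U' / U - 1 ≤ U' - U := by
    have : U' - U = U * (U' / U - 1) := by rw [mul_sub]; rw [← hUr]; ring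
    rw [this]; nlinarith
  have hd2 : U' - U ≤ (2 + 1 / 100) * (U' / U - 1) := by
    have : U' - U = U * (U' / U - 1) := by rw [mul_sub]; rw [← hUr]; ring
    rw [this]; nlinarith
  have habs : |A - U| < 1 / 100 := by
    rw [abs_lt]; constructor <;> linarith
  have habs0 : 0 ≤ |A - U| := abs_nonneg _
  have hUU : 0 < U' - U := by linarith
  have h1 : (U' - U) * |A - U| ≤ (U' - U) * (1 / 100) :=
    mul_le_mul_of_nonneg_left habs.le hUU.le
  have h2 : (U' - U) * |A - U| ≤ (1 / 100) * |A - U| :=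
    mul_le_mul_of_nonneg_right (by linarith) habs0
  refine ⟨hr1, hr2, by linarith, by linarith, by linarith, by linarith, hUr, hAr, rfl, he0, ?_, ?_,
    ?_, ?_, hU0, hU2, hA0, hA2⟩
  · linarith
  · linarith
  · linarith
  · linarith

/-- the nominal abscissa -/
noncomputable def gauxX (r : ℝ) (t : ℕ) : ℝ := if t = 0 ∨ t = 1 ∨ t = 4 ∨ t = 5 then 1 else r

/-- the slack of the abscissa -/
noncomputable def gauxa (t : ℕ) : ℝ :=
  if t = 0 then -1 else if t = 1 then 1 else if t = 2 then 30 else if t = 3 then -30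
  else if t = 4 then -1 / 2 else if t = 5 then 1 / 2 else if t = 6 then 31 else -31

/-- the nominal ordinate -/
noncomputable def gauxY (U A r : ℝ) (t : ℕ) : ℝ :=
  if t < 2 then U else if t < 4 then U * r else if t < 6 then A else A * r

theorem gaux_x (k : Bool) (U U' A A' e r : ℝ) (h : GauxP k U U' A A' e r) (t : ℕ) (ht : t < 8) :
    cox U U' e t = gauxX r t + gauxa t * e := by
  unfold cox gauxX gauxa
  rw [h.hr]
  interval_cases t <;> norm_num <;> ring

theorem gaux_y (k : Bool) (U U' A A' e r : ℝ) (h : GauxP k U U' A A' e r) (t : ℕ) (_ht : t < 8) :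
    coy k U U' A A' e t = gauxY U A r t + mul8 k t * e := by
  unfold coy gauxY
  rw [h.hU, h.hA]

theorem gaux_a (t : ℕ) : |gauxa t| ≤ 31 := by
  unfold gauxa
  rw [abs_le]
  split_ifs <;> norm_num

theorem gaux_m (k : Bool) (t : ℕ) : |mul8 k t| ≤ 124 := by
  unfold mul8
  rw [abs_le]
  split_ifs <;> norm_num

/-- the determinant differs from the nominal one by at most `1000 e` -/
theorem gaux_det (X1 X2 Y1 Y2 a1 a2 m1 m2 e : ℝ) (h1 : |X1| ≤ 1 + 1 / 100)
    (h2 : |X2| ≤ 1 + 1 / 100) (h3 : |Y1| ≤ 4) (h4 : |Y2| ≤ 4) (h5 : |a1| ≤ 31) (h6 : |a2| ≤ 31)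
    (h7 : |m1| ≤ 124) (h8 : |m2| ≤ 124) (he : 0 < e) (he2 : e ≤ 1 / 1000000) :
    |((X1 + a1 * e) * (Y2 + m2 * e) - (X2 + a2 * e) * (Y1 + m1 * e)) -
      (X1 * Y2 - X2 * Y1)| ≤ 1000 * e := by
  have e1 : ((X1 + a1 * e) * (Y2 + m2 * e) - (X2 + a2 * e) * (Y1 + m1 * e)) -
      (X1 * Y2 - X2 * Y1) =
      e * (a1 * Y2 + X1 * m2 - a2 * Y1 - X2 * m1 + e * (a1 * m2 - a2 * m1)) := by ring
  rw [e1, abs_mul, abs_of_pos he, mul_comm]
  refine mul_le_mul_of_nonneg_right ?_ he.le
  have b1 : |a1 * Y2| ≤ 31 * 4 := by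
    rw [abs_mul]; exact mul_le_mul h5 h4 (abs_nonneg _) (by norm_num)
  have b2 : |X1 * m2| ≤ (1 + 1 / 100) * 124 := by
    rw [abs_mul]; exact mul_le_mul h1 h8 (abs_nonneg _) (by norm_num)
  have b3 : |a2 * Y1| ≤ 31 * 4 := by
    rw [abs_mul]; exact mul_le_mul h6 h3 (abs_nonneg _) (by norm_num)
  have b4 : |X2 * m1| ≤ (1 + 1 / 100) * 124 := by
    rw [abs_mul]; exact mul_le_mul h2 h7 (abs_nonneg _) (by norm_num)
  have b5 : |a1 * m2| ≤ 31 * 124 := by
    rw [abs_mul]; exact mul_le_mul h5 h8 (abs_nonneg _) (by norm_num)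
  have b6 : |a2 * m1| ≤ 31 * 124 := by
    rw [abs_mul]; exact mul_le_mul h6 h7 (abs_nonneg _) (by norm_num)
  have b7 : |e * (a1 * m2 - a2 * m1)| ≤ 1 := by
    rw [abs_mul, abs_of_pos he]
    have : |a1 * m2 - a2 * m1| ≤ 31 * 124 + 31 * 124 := by
      rw [abs_le] at b5 b6 ⊢
      constructor <;> linarith [b5.1, b5.2, b6.1, b6.2]
    calc e * |a1 * m2 - a2 * m1| ≤ (1 / 1000000) * (31 * 124 + 31 * 124) :=
          mul_le_mul he2 this (abs_nonneg _) (by norm_num)
      _ ≤ 1 := by norm_num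
  rw [abs_le] at b1 b2 b3 b4 b7 ⊢
  constructor <;> linarith [b1.1, b1.2, b2.1, b2.2, b3.1, b3.2, b4.1, b4.2, b7.1, b7.2]

/-- the determinant of two corners with respect to a point at height `h` -/
theorem gaux_D (k : Bool) (U U' A A' e r : ℝ) (hP : GauxP k U U' A A' e r) (q s : ℕ) (hq : q < 8)
    (hs : s < 8) (h : ℝ) (h1 : -1 ≤ h) (h2 : h < 2 + 2 / 100) :
    |(cox U U' e q * (coy k U U' A A' e s - h) - cox U U' e s * (coy k U U' A A' e q - h)) -
      (gauxX r q * (gauxY U A r s - h) - gauxX r s * (gauxY U A r q - h))| ≤ 1000 * e := by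
  rw [gaux_x k U U' A A' e r hP q hq, gaux_x k U U' A A' e r hP s hs,
    gaux_y k U U' A A' e r hP q hq, gaux_y k U U' A A' e r hP s hs]
  have hX : ∀ t, |gauxX r t| ≤ 1 + 1 / 100 := by
    intro t
    have := hP.r1
    have := hP.r2
    unfold gauxX
    rw [abs_le]
    split_ifs <;> constructor <;> linarith
  have hY : ∀ t, |gauxY U A r t - h| ≤ 4 := by
    intro t
    have r1 := hP.r1
    have r2 := hP.r2
    have U1 := hP.U1
    have U2 := hP.U2
    have A1 := hP.A1
    have A2 := hP.A2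
    have u1 : U * r < 2 + 5 / 100 := by nlinarith
    have u2 : A * r < 2 + 5 / 100 := by nlinarith
    have u3 : 0 < U * r := by positivity
    have u4 : 0 < A * r := by positivity
    unfold gauxY
    rw [abs_le]
    split_ifs <;> constructor <;> linarith
  have key := gaux_det (gauxX r q) (gauxX r s) (gauxY U A r q - h) (gauxY U A r s - h)
    (gauxa q) (gauxa s) (mul8 k q) (mul8 k s) e (hX q) (hX s) (hY q) (hY s) (gaux_a q) (gaux_a s)
    (gaux_m k q) (gaux_m k s) hP.e0 hP.e3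
  have e1 : gauxY U A r s + mul8 k s * e - h = gauxY U A r s - h + mul8 k s * e := by ring
  have e2 : gauxY U A r q + mul8 k q * e - h = gauxY U A r q - h + mul8 k q * e := by ring
  rw [e1, e2]
  exact key

end Pool.Agent.Helper54.SP
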